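import Pool.Agent.W4.CF.Stms3

set_option autoImplicit false

/-! Project CD, part AG: property (A) for every form with nonzero discriminant. -/

namespace Pool.Agent.W21.CD

open NumberField Finset Pool.Agent.W4.CF

/-- the three roots -/
lemma roots3 (A B : ℤ) (hD : 4 * A ^ 3 - 27 * B ^ 2 ≠ 0) :
    ∃ r : Fin 3 → ℂ, Function.Injective r ∧
      ∀ u v : ℤ, ((G A B u v : ℤ) : ℂ) = ∏ j, ((u : ℂ) - v * r j) := by
  obtain ⟨r0, hr0⟩ : ∃ r0 : ℂ, r0 ^ 3 = A * r0 + B := by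
    have hdeg : ((Polynomial.X ^ 3 - Polynomial.C (A : ℂ) * Polynomial.X -
        Polynomial.C (B : ℂ)) : Polynomial ℂ).degree ≠ 0 := by
      have : ((Polynomial.X ^ 3 - Polynomial.C (A : ℂ) * Polynomial.X -
        Polynomial.C (B : ℂ)) : Polynomial ℂ).degree = 3 := by compute_degree!
      rw [this]
      norm_num
    obtain ⟨x, hx⟩ := IsAlgClosed.exists_root _ hdeg
    refine ⟨x, ?_⟩
    simp only [Polynomial.IsRoot.def, Polynomial.eval_sub, Polynomial.eval_pow,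
      Polynomial.eval_X, Polynomial.eval_mul, Polynomial.eval_C] at hx
    linear_combination hx
  obtain ⟨s, hs⟩ := IsAlgClosed.exists_pow_nat_eq (4 * (A : ℂ) - 3 * r0 ^ 2) (n := 2) two_pos
  have hD' : (4 * (A : ℂ) ^ 3 - 27 * (B : ℂ) ^ 2) ≠ 0 := by
    exact_mod_cast hD
  have h12 : s ≠ 0 := by
    intro h
    rw [h] at hs
    apply hD'
    have hA : (A : ℂ) = 3 / 4 * r0 ^ 2 := by linear_combination (-1 / 4) * hs
    have hB : (B : ℂ) = 1 / 4 * r0 ^ 3 := by
      linear_combination -hr0 - r0 * hA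
    rw [hA, hB]
    ring
  have h01 : s ≠ 3 * r0 := by
    intro h
    rw [h] at hs
    apply hD'
    have hA : (A : ℂ) = 3 * r0 ^ 2 := by linear_combination (-1 / 4) * hs
    have hB : (B : ℂ) = -2 * r0 ^ 3 := by
      linear_combination -hr0 - r0 * hA
    rw [hA, hB]
    ring
  have h02 : s ≠ -(3 * r0) := by
    intro h
    rw [h] at hs
    apply hD'
    have hA : (A : ℂ) = 3 * r0 ^ 2 := by linear_combination (-1 / 4) * hs
    have hB : (B : ℂ) = -2 * r0 ^ 3 := by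
      linear_combination -hr0 - r0 * hA
    rw [hA, hB]
    ring
  have g01 : r0 ≠ (-r0 + s) / 2 := by
    intro h
    apply h01
    linear_combination (-2) * h
  have g02 : r0 ≠ (-r0 - s) / 2 := by
    intro h
    apply h02
    linear_combination 2 * h
  have g12 : (-r0 + s) / 2 ≠ (-r0 - s) / 2 := by
    intro h
    apply h12
    linear_combination h
  refine ⟨![r0, (-r0 + s) / 2, (-r0 - s) / 2], ?_, fun u v => ?_⟩
  · intro i j hij
    fin_cases i <;> fin_cases j <;> simp_all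
  · rw [Fin.prod_univ_three]
    simp only [G]
    push_cast
    linear_combination ((v : ℂ) ^ 2 * (u - v * r0) / 4) * hs + (v : ℂ) ^ 3 * hr0

/-- the residue attached to a pair -/
lemma resid (A B : ℤ) (q : ℕ) (hq : 1 ≤ q) (u v : ℤ) (hc : IsCoprime u v)
    (hG : (q : ℤ) ∣ G A B u v) :
    ∃ t : ℕ, t < q ∧ (q : ℤ) ∣ (t : ℤ) ^ 3 - A * t - B ∧ (q : ℤ) ∣ t * v - u := by
  have h1 : IsCoprime v (G A B u v) := by
    have h2 : IsCoprime v (u ^ 3) := hc.symm.pow_right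
    have h3 : G A B u v = u ^ 3 + v * (-(A * u * v) - B * v ^ 2) := by
      unfold G
      ring
    rw [h3]
    exact h2.add_mul_left_right _
  have h4 : IsCoprime v (q : ℤ) := h1.of_isCoprime_of_dvd_right hG
  obtain ⟨a, b, hab⟩ := h4
  have hq0 : (0 : ℤ) < q := by exact_mod_cast hq
  have hpos : 0 ≤ (a * u) % (q : ℤ) := Int.emod_nonneg _ hq0.ne'
  have hlt : (a * u) % (q : ℤ) < q := Int.emod_lt_of_pos _ hq0
  refine ⟨((a * u) % (q : ℤ)).toNat, by omega, ?_⟩
  rw [Int.toNat_of_nonneg hpos]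
  set t := (a * u) % (q : ℤ) with ht
  have h5 : (q : ℤ) ∣ t - a * u := by
    have := Int.emod_add_mul_ediv (a * u) (q : ℤ)
    exact ⟨-((a * u) / q), by rw [ht]; linarith⟩
  have h6 : (q : ℤ) ∣ t * v - u := by
    obtain ⟨x, hx⟩ := h5
    refine ⟨x * v - u * b, ?_⟩
    linear_combination v * hx + u * hab
  refine ⟨?_, h6⟩
  have h7 : (q : ℤ) ∣ v ^ 3 * (t ^ 3 - A * t - B) := by
    obtain ⟨x, hx⟩ := h6
    obtain ⟨y, hy⟩ := hG
    unfold G at hy
    have e : t * v = u + q * x := by linear_combination hx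
    refine ⟨y + x * ((t * v) ^ 2 + (t * v) * u + u ^ 2) - A * v ^ 2 * x, ?_⟩
    linear_combination hy + ((t * v) ^ 2 + (t * v) * u + u ^ 2 - A * v ^ 2) * e
  exact (IsCoprime.dvd_of_dvd_mul_left (IsCoprime.pow_right (h1.of_isCoprime_of_dvd_right hG).symm)
    h7)

theorem t_AG (h1 : S_ROOTQ) (h2 : S_GEO) : S_AG := by
  classical
  intro A B hD c ε hc hε
  obtain ⟨r, hr, hroots⟩ := roots3 A B hD
  obtain ⟨C1, hC1, hgeo⟩ := h2 r hr c 1 hc le_rfl
  obtain ⟨C2, hC2, hroot⟩ := h1 A B hD ε hε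
  refine ⟨C1 * C2, mul_pos hC1 hC2, fun Y hY q hq s hs => ?_⟩
  have hres : ∀ p : ℤ × ℤ, p ∈ s → ∃ t : ℕ, t < q ∧ (q : ℤ) ∣ (t : ℤ) ^ 3 - A * t - B ∧
      (q : ℤ) ∣ t * p.2 - p.1 := fun p hp =>
    resid A B q hq p.1 p.2 (hs p hp).1.1 (hs p hp).2.1
  choose! J hJ using hres
  have himg : ((s.image J).card : ℝ) ≤ C2 * (q : ℝ) ^ ε := by
    refine le_trans ?_ (hroot q hq)
    have : s.image J ⊆ (range q).filter (fun t : ℕ => (q : ℤ) ∣ (t : ℤ) ^ 3 - A * t - B) := by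
      intro t ht
      obtain ⟨p, hp, rfl⟩ := Finset.mem_image.1 ht
      rw [Finset.mem_filter, Finset.mem_range]
      exact ⟨(hJ p hp).1, (hJ p hp).2.1⟩
    exact_mod_cast Finset.card_le_card this
  have hfib : ∀ b ∈ s.image J, ((s.filter (fun p => J p = b)).card : ℝ) ≤ C1 := by
    intro b _
    refine hgeo Y hY q hq _ (fun p hp => ?_) (fun p hp p' hp' => ?_)
    · have hp1 := hs p (Finset.mem_filter.1 hp).1
      refine ⟨hp1.1, ?_⟩
      rw [← hroots p.1 p.2, Complex.norm_intCast]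
      exact hp1.2.2
    · obtain ⟨hp1, hb⟩ := Finset.mem_filter.1 hp
      obtain ⟨hp2, hb'⟩ := Finset.mem_filter.1 hp'
      obtain ⟨x, hx⟩ := (hJ p hp1).2.2
      obtain ⟨y, hy⟩ := (hJ p' hp2).2.2
      rw [hb] at hx
      rw [hb'] at hy
      refine ⟨y * p.2 - x * p'.2, ?_⟩
      push_cast
      linear_combination p.2 * hy - p'.2 * hx
  have hcard : (s.card : ℝ) = ∑ b ∈ s.image J, ((s.filter (fun p => J p = b)).card : ℝ) := by
    rw [Finset.card_eq_sum_card_image J s]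
    push_cast
    rfl
  rw [hcard]
  calc ∑ b ∈ s.image J, ((s.filter (fun p => J p = b)).card : ℝ)
      ≤ ∑ _b ∈ s.image J, C1 := Finset.sum_le_sum hfib
    _ = C1 * ((s.image J).card : ℝ) := by rw [Finset.sum_const, nsmul_eq_mul, mul_comm]
    _ ≤ C1 * (C2 * (q : ℝ) ^ ε) := mul_le_mul_of_nonneg_left himg hC1.le
    _ = C1 * C2 * (q : ℝ) ^ ε := by ring

end Pool.Agent.W21.CD
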